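import Mathlib
import Pool.Agent.PDX.Stmts

/-!
# PDX, module MAP: isolated vertices do not matter for planarity
-/

set_option autoImplicit false

namespace Pool.Agent.PDX.H49

open Pool.Agent.PDN Pool.Agent.PDX

section Perm

variable {α β : Type} (e : α ≃ β)

theorem same_conj (ρ : Equiv.Perm α) (x y : α) :
    (e.permCongrHom ρ).SameCycle (e x) (e y) ↔ ρ.SameCycle x y := by
  unfold Equiv.Perm.SameCycle
  apply exists_congr
  intro i
  rw [← map_zpow]
  change e ((ρ ^ i) (e.symm (e x))) = e y ↔ _
  rw [Equiv.symm_apply_apply, e.apply_eq_iff_eq]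

end Perm

variable {V W : Type} (G : SimpleGraph V) (f : V ↪ W)

/-- the darts correspond -/
noncomputable def de : G.Dart ≃ (G.map f).Dart :=
  Equiv.ofBijective (fun d => ⟨(f d.fst, f d.snd), SimpleGraph.map_adj_apply.2 d.adj⟩) (by
    constructor
    · intro d d' h
      have h1 := congrArg (fun x : (G.map f).Dart => x.fst) h
      have h2 := congrArg (fun x : (G.map f).Dart => x.snd) h
      simp only at h1 h2
      apply SimpleGraph.Dart.ext
      exact Prod.ext (f.injective h1) (f.injective h2)
    · rintro ⟨⟨a, b⟩, hab⟩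
      obtain ⟨u, v, huv, rfl, rfl⟩ := (SimpleGraph.map_adj f G a b).1 hab
      exact ⟨⟨(u, v), huv⟩, rfl⟩)

theorem de_fst (d : G.Dart) : (de G f d).fst = f d.fst := rfl
theorem de_snd (d : G.Dart) : (de G f d).snd = f d.snd := rfl

theorem de_symm (d : G.Dart) : (de G f d).symm = de G f d.symm := rfl

theorem face_conj (ρ : Equiv.Perm G.Dart) :
    facePerm ((de G f).permCongrHom ρ) = (de G f).permCongrHom (facePerm ρ) := by
  ext1 x
  obtain ⟨d, rfl⟩ := (de G f).surjective x
  change (de G f) (ρ ((de G f).symm ((de G f d).symm))) =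
    (de G f) (ρ (((de G f).symm (de G f d)).symm))
  rw [de_symm, Equiv.symm_apply_apply, Equiv.symm_apply_apply]

theorem card_faces (ρ : Equiv.Perm G.Dart) :
    Nat.card (Faces ((de G f).permCongrHom ρ)) = Nat.card (Faces ρ) := by
  refine (Nat.card_congr (Quotient.congr (de G f) ?_)).symm
  intro a b
  change (facePerm ρ).SameCycle a b ↔
    (facePerm ((de G f).permCongrHom ρ)).SameCycle (de G f a) (de G f b)
  rw [face_conj, same_conj]

theorem card_edges : Nat.card (G.map f).edgeSet = Nat.card G.edgeSet := by
  rw [SimpleGraph.edgeSet_map]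
  exact Nat.card_image_of_injective f.sym2Map.injective _

theorem adj_range {a b : W} (h : (G.map f).Adj a b) : a ∈ Set.range f := by
  obtain ⟨u, v, -, rfl, rfl⟩ := (SimpleGraph.map_adj f G a b).1 h
  exact ⟨u, rfl⟩

theorem card_vert [Fintype V] [Fintype W] :
    Nat.card W = Nat.card V + Nat.card {w : W // w ∉ Set.range f} := by
  classical
  have h1 : Nat.card W = Nat.card ({w : W // w ∈ Set.range f} ⊕ {w : W // w ∉ Set.range f}) :=
    Nat.card_congr (Equiv.sumCompl (fun w => w ∈ Set.range f)).symm
  rw [h1, Nat.card_sum]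
  congr 1
  exact (Nat.card_congr (Equiv.ofInjective f f.injective)).symm

theorem card_iso [Fintype V] [Fintype W] :
    Nat.card {w : W // ∀ u, ¬ (G.map f).Adj w u} =
      Nat.card {v : V // ∀ u, ¬ G.Adj v u} + Nat.card {w : W // w ∉ Set.range f} := by
  classical
  rw [← Nat.card_sum]
  symm
  refine Nat.card_eq_of_bijective (Sum.elim
    (fun v => ⟨f v.1, fun u h => by
      obtain ⟨a, b, hab, h1, rfl⟩ := (SimpleGraph.map_adj f G _ _).1 h
      rw [f.injective h1] at hab
      exact v.2 b hab⟩)
    (fun w => ⟨w.1, fun u h => w.2 (adj_range G f h)⟩)) ?_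
  constructor
  · rintro (v | w) (v' | w') h
    · have := congrArg Subtype.val h
      simp only [Sum.elim_inl] at this
      exact congrArg Sum.inl (Subtype.ext (f.injective this))
    · have := congrArg Subtype.val h
      simp only [Sum.elim_inl, Sum.elim_inr] at this
      exact absurd ⟨v.1, this⟩ w'.2
    · have := congrArg Subtype.val h
      simp only [Sum.elim_inl, Sum.elim_inr] at this
      exact absurd ⟨v'.1, this.symm⟩ w.2
    · have := congrArg Subtype.val h
      simp only [Sum.elim_inr] at this
      exact congrArg Sum.inr (Subtype.ext this)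
  · rintro ⟨w, hw⟩
    by_cases h : w ∈ Set.range f
    · obtain ⟨v, rfl⟩ := h
      exact ⟨Sum.inl ⟨v, fun u huv => hw (f u) (SimpleGraph.map_adj_apply.2 huv)⟩, rfl⟩
    · exact ⟨Sum.inr ⟨w, h⟩, rfl⟩

theorem reach_of {a b : W} (h : (G.map f).Reachable a b) :
    a = b ∨ ∃ u v, f u = a ∧ f v = b ∧ G.Reachable u v := by
  obtain ⟨p⟩ := h
  induction p with
  | nil => exact Or.inl rfl
  | @cons a b c hab p ih =>
    right
    obtain ⟨u, v, huv, rfl, rfl⟩ := (SimpleGraph.map_adj f G a b).1 hab
    rcases ih with h | ⟨u', v', h1, h2, h3⟩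
    · exact ⟨u, v, rfl, h, huv.reachable⟩
    · rw [f.injective h1] at h3
      exact ⟨u, v', rfl, h2, huv.reachable.trans h3⟩

theorem card_comp [Fintype V] [Fintype W] :
    Nat.card (G.map f).ConnectedComponent =
      Nat.card G.ConnectedComponent + Nat.card {w : W // w ∉ Set.range f} := by
  classical
  rw [← Nat.card_sum]
  symm
  let g : G →g G.map f := ⟨f, fun h => SimpleGraph.map_adj_apply.2 h⟩
  refine Nat.card_eq_of_bijective (Sum.elim (fun c => c.map g)
    (fun w => (G.map f).connectedComponentMk w.1)) ?_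
  constructor
  · rintro (c | w) (c' | w') h
    · simp only [Sum.elim_inl] at h
      induction c using SimpleGraph.ConnectedComponent.ind with | _ u => ?_
      induction c' using SimpleGraph.ConnectedComponent.ind with | _ v => ?_
      rw [SimpleGraph.ConnectedComponent.map_mk, SimpleGraph.ConnectedComponent.map_mk,
        SimpleGraph.ConnectedComponent.eq] at h
      congr 1
      rw [SimpleGraph.ConnectedComponent.eq]
      rcases reach_of G f h with h | ⟨u', v', h1, h2, h3⟩
      · have : u = v := f.injective h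
        rw [this]
      · have e1 : u' = u := f.injective h1
        have e2 : v' = v := f.injective h2
        rwa [e1, e2] at h3
    · simp only [Sum.elim_inl, Sum.elim_inr] at h
      induction c using SimpleGraph.ConnectedComponent.ind with | _ u => ?_
      rw [SimpleGraph.ConnectedComponent.map_mk, SimpleGraph.ConnectedComponent.eq] at h
      rcases reach_of G f h with h | ⟨u', v', h1, h2, h3⟩
      · exact absurd ⟨u, h⟩ w'.2
      · exact absurd ⟨v', h2⟩ w'.2
    · simp only [Sum.elim_inl, Sum.elim_inr] at h
      induction c' using SimpleGraph.ConnectedComponent.ind with | _ u => ?_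
      rw [SimpleGraph.ConnectedComponent.map_mk, SimpleGraph.ConnectedComponent.eq] at h
      rcases reach_of G f h with h | ⟨u', v', h1, h2, h3⟩
      · exact absurd ⟨u, h.symm⟩ w.2
      · exact absurd ⟨u', h1⟩ w.2
    · simp only [Sum.elim_inr] at h
      rw [SimpleGraph.ConnectedComponent.eq] at h
      rcases reach_of G f h with h | ⟨u', v', h1, h2, h3⟩
      · exact congrArg Sum.inr (Subtype.ext h)
      · exact absurd ⟨u', h1⟩ w.2
  · intro c
    induction c using SimpleGraph.ConnectedComponent.ind with | _ w => ?_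
    by_cases h : w ∈ Set.range f
    · obtain ⟨v, rfl⟩ := h
      exact ⟨Sum.inl (G.connectedComponentMk v), rfl⟩
    · exact ⟨Sum.inr ⟨w, h⟩, rfl⟩

theorem map : MapStmt := by
  classical
  intro V W _ _ G f
  have key : ∀ ρ : Equiv.Perm G.Dart,
      ((∀ d, (((de G f).permCongrHom ρ) d).fst = d.fst) ∧
        (∀ d e : (G.map f).Dart, d.fst = e.fst →
          ((de G f).permCongrHom ρ).SameCycle d e) ∧
        Nat.card W + Nat.card (Faces ((de G f).permCongrHom ρ)) +
          Nat.card {v : W // ∀ w, ¬ (G.map f).Adj v w} =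
          Nat.card (G.map f).edgeSet + 2 * Nat.card (G.map f).ConnectedComponent) ↔
      ((∀ d, (ρ d).fst = d.fst) ∧ (∀ d e : G.Dart, d.fst = e.fst → ρ.SameCycle d e) ∧
        Nat.card V + Nat.card (Faces ρ) + Nat.card {v : V // ∀ w, ¬ G.Adj v w} =
          Nat.card G.edgeSet + 2 * Nat.card G.ConnectedComponent) := by
    intro ρ
    rw [card_faces, card_edges, card_iso, card_comp, card_vert f]
    refine and_congr ?_ (and_congr ?_ ?_)
    · rw [← (de G f).forall_congr_right]
      refine forall_congr' fun d => ?_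
      change (de G f (ρ ((de G f).symm (de G f d)))).fst = (de G f d).fst ↔ _
      rw [Equiv.symm_apply_apply, de_fst, de_fst, f.injective.eq_iff]
    · rw [← (de G f).forall_congr_right]
      refine forall_congr' fun d => ?_
      rw [← (de G f).forall_congr_right]
      refine forall_congr' fun d' => ?_
      rw [same_conj, de_fst, de_fst, f.injective.eq_iff]
    · constructor <;> intro h <;> omega
  constructor
  · rintro ⟨ρ', h⟩
    obtain ⟨ρ, rfl⟩ := (de G f).permCongrHom.surjective ρ'
    exact ⟨ρ, (key ρ).1 h⟩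
  · rintro ⟨ρ, h⟩
    exact ⟨(de G f).permCongrHom ρ, (key ρ).2 h⟩

end Pool.Agent.PDX.H49
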